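import Pool.Agent.H94.AC.Targets

/-!
# Insulating cracks, module CNX: a crack does not disconnect the domain
-/

open Set Filter Topology Metric
open scoped ENNReal NNReal ContDiff

namespace Pool.Agent.H97.ICA

open Pool.Agent.H94.IC Pool.Agent.H94.AC

/-- local type of an edge point -/
def LocE (Ω S : Set E) (p : E) : Prop :=
  ∃ W : Set E, IsOpen W ∧ p ∈ W ∧ W ⊆ Ω ∧ IsPreconnected (W \ S)

/-- local type of an interior point -/
def LocI (Ω S : Set E) (p : E) : Prop :=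
  ∃ W W1 W2 : Set E, IsOpen W ∧ p ∈ W ∧ W ⊆ Ω ∧ IsPreconnected W1 ∧ IsPreconnected W2 ∧
    W \ S = W1 ∪ W2 ∧ ∀ q ∈ W ∩ S, q ∈ closure W1 ∧ q ∈ closure W2

theorem topo {Ω S : Set E} (hΩo : IsOpen Ω) (hΩ : IsPreconnected Ω) (hSc : IsClosed S)
    (hS : IsPreconnected S) (F1 : S ⊆ closure (Ω \ S))
    (hloc : ∀ p ∈ S, LocE Ω S p ∨ LocI Ω S p) (hedge : ∃ p ∈ S, LocE Ω S p) :
    IsPreconnected (Ω \ S) := by
  intro u v hu hv hcov hau hbv
  by_contra hne
  rw [Set.not_nonempty_iff_eq_empty] at hne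
  obtain ⟨a, ha, hau⟩ := hau
  obtain ⟨b, hb, hbv⟩ := hbv
  have hΩS : IsOpen (Ω \ S) := hΩo.sdiff hSc
  set U : Set E := (Ω \ S) ∩ u with hU
  set V : Set E := (Ω \ S) ∩ v with hV
  have hUo : IsOpen U := hΩS.inter hu
  have hVo : IsOpen V := hΩS.inter hv
  have hdisj : Disjoint U V := by
    rw [Set.disjoint_left]
    intro x hx hx'
    have : x ∈ (Ω \ S) ∩ (u ∩ v) := ⟨hx.1, hx.2, hx'.2⟩
    rw [hne] at this
    exact this
  have hUV : Ω \ S ⊆ U ∪ V := by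
    intro x hx
    rcases hcov hx with h | h
    · exact Or.inl ⟨hx, h⟩
    · exact Or.inr ⟨hx, h⟩
  have hdis : ∀ x, x ∈ U → x ∈ V → False := fun x hx hx' => Set.disjoint_left.1 hdisj hx hx'
  have hUcV : ∀ x ∈ U, x ∉ closure V := by
    intro x hx hx'
    obtain ⟨z, hz1, hz2⟩ := mem_closure_iff.1 hx' U hUo hx
    exact hdis z hz1 hz2
  have hVcU : ∀ x ∈ V, x ∉ closure U := by
    intro x hx hx'
    obtain ⟨z, hz1, hz2⟩ := mem_closure_iff.1 hx' V hVo hx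
    exact hdis z hz2 hz1
  have key : ∀ p ∈ S, p ∈ closure U → p ∈ closure V → ∀ W : Set E, IsOpen W → p ∈ W →
      W ⊆ Ω → ¬ (W \ S ⊆ U) ∧ ¬ (W \ S ⊆ V) := by
    intro p _ hpU hpV W hW hpW _
    constructor
    · intro h
      obtain ⟨z, hz1, hz2⟩ := mem_closure_iff.1 hpV W hW hpW
      exact hdis z (h ⟨hz1, hz2.1.2⟩) hz2
    · intro h
      obtain ⟨z, hz1, hz2⟩ := mem_closure_iff.1 hpU W hW hpW
      exact hdis z hz2 (h ⟨hz1, hz2.1.2⟩)
  have keyE : ∀ p ∈ S, LocE Ω S p → p ∈ closure U → p ∈ closure V → False := by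
    rintro p hp ⟨W, hW, hpW, hWΩ, hWc⟩ hpU hpV
    obtain ⟨k1, k2⟩ := key p hp hpU hpV W hW hpW hWΩ
    have hsub : W \ S ⊆ U ∪ V := fun x hx => hUV ⟨hWΩ hx.1, hx.2⟩
    rcases hWc.subset_or_subset hUo hVo hdisj hsub with h | h
    · exact k1 h
    · exact k2 h
  have keyI : ∀ p ∈ S, LocI Ω S p → p ∈ closure U → p ∈ closure V →
      ∃ O : Set E, IsOpen O ∧ p ∈ O ∧ O ∩ S ⊆ closure U ∩ closure V := by
    rintro p hp ⟨W, W1, W2, hW, hpW, hWΩ, hW1, hW2, hWS, hcl⟩ hpU hpV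
    obtain ⟨k1, k2⟩ := key p hp hpU hpV W hW hpW hWΩ
    have hsub : W \ S ⊆ U ∪ V := fun x hx => hUV ⟨hWΩ hx.1, hx.2⟩
    have hs1 : W1 ⊆ U ∪ V := fun x hx => hsub (by rw [hWS]; exact Or.inl hx)
    have hs2 : W2 ⊆ U ∪ V := fun x hx => hsub (by rw [hWS]; exact Or.inr hx)
    refine ⟨W, hW, hpW, ?_⟩
    intro q hq
    obtain ⟨hq1, hq2⟩ := hcl q hq
    rcases hW1.subset_or_subset hUo hVo hdisj hs1 with h1 | h1
    · rcases hW2.subset_or_subset hUo hVo hdisj hs2 with h2 | h2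
      · exact absurd (by rw [hWS]; exact Set.union_subset h1 h2) k1
      · exact ⟨closure_mono h1 hq1, closure_mono h2 hq2⟩
    · rcases hW2.subset_or_subset hUo hVo hdisj hs2 with h2 | h2
      · exact ⟨closure_mono h2 hq2, closure_mono h1 hq1⟩
      · exact absurd (by rw [hWS]; exact Set.union_subset h1 h2) k2
  have hT : ∀ p ∈ S, ¬ (p ∈ closure U ∧ p ∈ closure V) := by
    intro p hp hpT
    let O1 : Set E := ⋃₀ {O : Set E | IsOpen O ∧ O ∩ S ⊆ closure U ∩ closure V}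
    have hO1 : IsOpen O1 := isOpen_sUnion (fun O hO => hO.1)
    have hO2 : IsOpen (closure U ∩ closure V)ᶜ :=
      (isClosed_closure.inter isClosed_closure).isOpen_compl
    have hin : ∀ q ∈ S, q ∈ closure U ∩ closure V → q ∈ O1 := by
      intro q hq hqT
      rcases hloc q hq with h | h
      · exact (keyE q hq h hqT.1 hqT.2).elim
      · obtain ⟨O, hO, hqO, hOS⟩ := keyI q hq h hqT.1 hqT.2
        exact ⟨O, ⟨hO, hOS⟩, hqO⟩
    have hc : S ⊆ O1 ∪ (closure U ∩ closure V)ᶜ := by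
      intro q hq
      by_cases hqT : q ∈ closure U ∩ closure V
      · exact Or.inl (hin q hq hqT)
      · exact Or.inr hqT
    obtain ⟨e, he, heE⟩ := hedge
    have h1 : (S ∩ O1).Nonempty := ⟨p, hp, hin p hp hpT⟩
    have h2 : (S ∩ (closure U ∩ closure V)ᶜ).Nonempty :=
      ⟨e, he, fun h => keyE e he heE h.1 h.2⟩
    obtain ⟨x, hxS, hx1, hx2⟩ := hS O1 _ hO1 hO2 hc h1 h2
    obtain ⟨O, ⟨_, hOS⟩, hxO⟩ := hx1
    exact hx2 (hOS ⟨hxO, hxS⟩)
  have hcovΩ : Ω ⊆ (closure V)ᶜ ∪ (closure U)ᶜ := by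
    intro x hx
    by_contra hcon
    rw [Set.mem_union, not_or, Set.notMem_compl_iff, Set.notMem_compl_iff] at hcon
    by_cases hxS : x ∈ S
    · exact hT x hxS ⟨hcon.2, hcon.1⟩
    · rcases hUV ⟨hx, hxS⟩ with h | h
      · exact hUcV x h hcon.1
      · exact hVcU x h hcon.2
  obtain ⟨x, hxΩ, hxV, hxU⟩ := hΩ _ _ isClosed_closure.isOpen_compl isClosed_closure.isOpen_compl hcovΩ
    ⟨a, ha.1, hUcV a ⟨ha, hau⟩⟩ ⟨b, hb.1, hVcU b ⟨hb, hbv⟩⟩
  by_cases hxS : x ∈ S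
  · have h1 : x ∈ closure (U ∪ V) := closure_mono hUV (F1 hxS)
    rw [closure_union] at h1
    rcases h1 with h | h
    · exact hxU h
    · exact hxV h
  · rcases hUV ⟨hxΩ, hxS⟩ with h | h
    · exact hxU (subset_closure h)
    · exact hxV (subset_closure h)

/-- a small ball in a chart -/
theorem small_ball {Ω : Set E} (hΩ : IsOpen Ω) (Ψ : OpenPartialHomeomorph E E) {p : E}
    (hp : p ∈ Ψ.source) (hp0 : Ψ p = 0) (hpΩ : p ∈ Ω) :
    ∃ e : ℝ, 0 < e ∧ ball (0 : E) e ⊆ Ψ.target ∧ (∀ y ∈ ball (0 : E) e, Ψ.symm y ∈ Ω) := by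
  have h1 : IsOpen (Ψ.target ∩ Ψ.symm ⁻¹' Ω) := Ψ.symm.isOpen_inter_preimage hΩ
  have h0 : (0 : E) ∈ Ψ.target ∩ Ψ.symm ⁻¹' Ω := by
    rw [← hp0]
    refine ⟨Ψ.map_source hp, ?_⟩
    rw [Set.mem_preimage, Ψ.left_inv hp]
    exact hpΩ
  obtain ⟨e, he, hball⟩ := Metric.isOpen_iff.1 h1 0 h0
  exact ⟨e, he, fun y hy => (hball hy).1, fun y hy => (hball hy).2⟩

theorem ev2 (t : ℝ) : (t • ev 2 : E) 2 = t := by
  simp [ev]

/-- points with positive (or negative) last coordinate accumulate at the plane -/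
theorem closure_half {e s : ℝ} (hs : s = 1 ∨ s = -1) {y : E} (hy : y ∈ ball (0 : E) e)
    (hy2 : y 2 = 0) : y ∈ closure {z : E | z ∈ ball (0 : E) e ∧ 0 < s * z 2} := by
  have hs0 : s * s = 1 := by rcases hs with h | h <;> rw [h] <;> norm_num
  have hlim : Tendsto (fun t : ℝ => y + (t * s) • ev 2) (𝓝[>] 0) (𝓝 y) := by
    have : Continuous (fun t : ℝ => y + (t * s) • ev 2) := by fun_prop
    have h := this.tendsto 0
    simp only [zero_mul, zero_smul, add_zero] at h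
    exact h.mono_left nhdsWithin_le_nhds
  refine mem_closure_of_tendsto hlim ?_
  have h1 : ∀ᶠ t : ℝ in 𝓝[>] 0, y + (t * s) • ev 2 ∈ ball (0 : E) e :=
    hlim.eventually (isOpen_ball.mem_nhds hy)
  filter_upwards [h1, self_mem_nhdsWithin] with t ht ht0
  refine ⟨ht, ?_⟩
  have h2 : (y + (t * s) • ev 2 : E) 2 = t * s := by
    rw [PiLp.add_apply, hy2, ev2, zero_add]
  rw [h2, mul_comm t s, ← mul_assoc, hs0, one_mul]
  exact ht0

theorem image_diff {S : Set E} (Ψ : OpenPartialHomeomorph E E) {e : ℝ} {P : E → Prop}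
    (he : ball (0 : E) e ⊆ Ψ.target) (hS : ∀ x ∈ Ψ.source, x ∈ S ↔ P (Ψ x)) :
    (Ψ.symm '' ball (0 : E) e) \ S = Ψ.symm '' {y | y ∈ ball (0 : E) e ∧ ¬ P y} := by
  ext x
  constructor
  · rintro ⟨⟨y, hy, rfl⟩, hx⟩
    refine ⟨y, ⟨hy, fun hP => hx ?_⟩, rfl⟩
    rw [hS _ (Ψ.map_target (he hy)), Ψ.right_inv (he hy)]
    exact hP
  · rintro ⟨y, ⟨hy, hP⟩, rfl⟩
    refine ⟨⟨y, hy, rfl⟩, fun hx => hP ?_⟩
    rw [hS _ (Ψ.map_target (he hy)), Ψ.right_inv (he hy)] at hx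
    exact hx

theorem locI {Ω S : Set E} (hΩ : IsOpen Ω) {p : E} (hpΩ : p ∈ Ω) (h : FlatChart S p False) :
    LocI Ω S p := by
  obtain ⟨Ψ, hp, hp0, -, -, hS⟩ := h
  obtain ⟨e, he, hb, hbΩ⟩ := small_ball hΩ Ψ hp hp0 hpΩ
  have hcont : ContinuousOn Ψ.symm (ball (0 : E) e) := Ψ.continuousOn_symm.mono hb
  have hS' : ∀ x ∈ Ψ.source, x ∈ S ↔ (fun y : E => y 2 = 0) (Ψ x) := by
    intro x hx
    rw [hS x hx]
    simp
  have hconv : ∀ s : ℝ, IsPreconnected {z : E | z ∈ ball (0 : E) e ∧ 0 < s * z 2} := by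
    intro s
    apply Convex.isPreconnected
    refine (convex_ball (0 : E) e).inter ?_
    have hlin : IsLinearMap ℝ (fun z : E => s * z 2) := by
      constructor
      · intro x y
        simp [mul_add]
      · intro c x
        simp
        ring
    exact convex_halfSpace_gt hlin 0
  refine ⟨Ψ.symm '' ball (0 : E) e, Ψ.symm '' {z : E | z ∈ ball (0 : E) e ∧ 0 < 1 * z 2},
    Ψ.symm '' {z : E | z ∈ ball (0 : E) e ∧ 0 < (-1) * z 2},
    Ψ.symm.isOpen_image_of_subset_source isOpen_ball hb, ?_, ?_, ?_, ?_, ?_, ?_⟩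
  · exact ⟨0, mem_ball_self he, by rw [← hp0, Ψ.left_inv hp]⟩
  · rintro x ⟨y, hy, rfl⟩
    exact hbΩ y hy
  · exact (hconv 1).image _ (hcont.mono fun z hz => hz.1)
  · exact (hconv (-1)).image _ (hcont.mono fun z hz => hz.1)
  · rw [image_diff (P := fun y : E => y 2 = 0) Ψ hb hS', ← Set.image_union]
    congr 1
    ext y
    constructor
    · rintro ⟨hy, hy2⟩
      rcases lt_or_gt_of_ne hy2 with h | h
      · right
        exact ⟨hy, by linarith⟩
      · left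
        exact ⟨hy, by linarith⟩
    · rintro (⟨hy, hy2⟩ | ⟨hy, hy2⟩)
      · exact ⟨hy, fun h0 => by rw [h0] at hy2; linarith⟩
      · exact ⟨hy, fun h0 => by rw [h0] at hy2; linarith⟩
  · rintro q ⟨⟨y, hy, rfl⟩, hqS⟩
    have hy2 : y 2 = 0 := by
      rw [hS' _ (Ψ.map_target (hb hy)), Ψ.right_inv (hb hy)] at hqS
      exact hqS
    have hc : ContinuousAt Ψ.symm y := hcont.continuousAt (isOpen_ball.mem_nhds hy)
    exact ⟨hc.continuousWithinAt.mem_closure_image (closure_half (Or.inl rfl) hy hy2),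
      hc.continuousWithinAt.mem_closure_image (closure_half (Or.inr rfl) hy hy2)⟩

theorem locE {Ω S : Set E} (hΩ : IsOpen Ω) {p : E} (hpΩ : p ∈ Ω) (h : FlatChart S p True) :
    LocE Ω S p := by
  obtain ⟨Ψ, hp, hp0, -, -, hS⟩ := h
  obtain ⟨e, he, hb, hbΩ⟩ := small_ball hΩ Ψ hp hp0 hpΩ
  have hcont : ContinuousOn Ψ.symm (ball (0 : E) e) := Ψ.continuousOn_symm.mono hb
  have hS' : ∀ x ∈ Ψ.source, x ∈ S ↔ (fun y : E => y 2 = 0 ∧ 0 ≤ y 0) (Ψ x) := by
    intro x hx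
    rw [hS x hx]
    simp
  refine ⟨Ψ.symm '' ball (0 : E) e,
    Ψ.symm.isOpen_image_of_subset_source isOpen_ball hb, ?_, ?_, ?_⟩
  · exact ⟨0, mem_ball_self he, by rw [← hp0, Ψ.left_inv hp]⟩
  · rintro x ⟨y, hy, rfl⟩
    exact hbΩ y hy
  · rw [image_diff (P := fun y : E => y 2 = 0 ∧ 0 ≤ y 0) Ψ hb hS']
    refine IsPreconnected.image ?_ _ (hcont.mono fun z hz => hz.1)
    -- star-shaped with centre `c`
    obtain ⟨c, hc0, hc2, hcb⟩ : ∃ c : E, c 0 = -(e / 2) ∧ c 2 = 0 ∧ c ∈ ball (0 : E) e := by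
      refine ⟨(-(e / 2)) • ev 0, by simp [ev], by simp [ev], ?_⟩
      rw [mem_ball_zero_iff, norm_smul]
      simp only [ev, PiLp.norm_single, norm_one, mul_one, norm_neg, Real.norm_eq_abs]
      rw [abs_of_pos (by linarith)]
      linarith
    have hstar : StarConvex ℝ c {y : E | y ∈ ball (0 : E) e ∧ ¬ (y 2 = 0 ∧ 0 ≤ y 0)} := by
      rintro y ⟨hy, hyn⟩ a b ha hb' hab
      refine ⟨(convex_ball (0 : E) e) hcb hy ha hb' hab, ?_⟩
      rintro ⟨h1, h2⟩
      rw [PiLp.add_apply, PiLp.smul_apply, PiLp.smul_apply, smul_eq_mul, smul_eq_mul, hc2, mul_zero,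
        zero_add] at h1
      rw [PiLp.add_apply, PiLp.smul_apply, PiLp.smul_apply, smul_eq_mul, smul_eq_mul, hc0] at h2
      rcases mul_eq_zero.1 h1 with h | h
      · rw [h] at hab h2
        have ha1 : a = 1 := by linarith
        rw [ha1] at h2
        linarith
      · have hy0 : y 0 < 0 := by
          by_contra hcon
          exact hyn ⟨h, not_lt.1 hcon⟩
        have h3 : a * -(e / 2) ≤ 0 := by nlinarith
        have h4 : b * y 0 ≤ 0 := by nlinarith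
        have h5 : a * -(e / 2) = 0 := by linarith
        have h6 : b * y 0 = 0 := by linarith
        have ha0 : a = 0 := by
          rcases mul_eq_zero.1 h5 with h | h
          · exact h
          · linarith
        have hb0 : b = 0 := by
          rcases mul_eq_zero.1 h6 with h | h
          · exact h
          · linarith
        linarith
    have hcn : c ∈ {y : E | y ∈ ball (0 : E) e ∧ ¬ (y 2 = 0 ∧ 0 ≤ y 0)} := by
      refine ⟨hcb, ?_⟩
      rw [hc0]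
      rintro ⟨-, h⟩
      linarith
    exact (hstar.isPathConnected hcn).isConnected.isPreconnected

theorem clos {Ω S : Set E} (hΩ : IsOpen Ω) {p : E} (hpΩ : p ∈ Ω) {half : Prop}
    (h : FlatChart S p half) : p ∈ closure (Ω \ S) := by
  obtain ⟨Ψ, hp, hp0, -, -, hS⟩ := h
  obtain ⟨e, he, hb, hbΩ⟩ := small_ball hΩ Ψ hp hp0 hpΩ
  have hcont : ContinuousOn Ψ.symm (ball (0 : E) e) := Ψ.continuousOn_symm.mono hb
  have h0 : (0 : E) ∈ ball (0 : E) e := mem_ball_self he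
  have hc : ContinuousAt Ψ.symm (0 : E) := hcont.continuousAt (isOpen_ball.mem_nhds h0)
  have h1 := hc.continuousWithinAt.mem_closure_image
    (closure_half (e := e) (Or.inl rfl) h0 (by simp))
  rw [← hp0, Ψ.left_inv hp] at h1
  refine closure_mono ?_ h1
  rintro x ⟨y, ⟨hy, hy2⟩, rfl⟩
  rw [hp0] at hy
  refine ⟨hbΩ y hy, fun hx => ?_⟩
  rw [hS _ (Ψ.map_target (hb hy)), Ψ.right_inv (hb hy)] at hx
  rw [hx.1] at hy2
  linarith

theorem cnx : T_CNX := by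
  intro Ω S hΩo hΩ hcr
  have hSc : IsClosed S := hcr.cpt.isClosed
  have F1 : S ⊆ closure (Ω \ S) := by
    intro p hp
    rcases hcr.chart p hp with h | h
    · exact clos hΩo (hcr.sub hp) h.2
    · exact clos hΩo (hcr.sub hp) h.2
  have hloc : ∀ p ∈ S, LocE Ω S p ∨ LocI Ω S p := by
    intro p hp
    rcases hcr.chart p hp with h | h
    · exact Or.inr (locI hΩo (hcr.sub hp) h.2)
    · exact Or.inl (locE hΩo (hcr.sub hp) h.2)
  have hedge : ∃ p ∈ S, LocE Ω S p := by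
    obtain ⟨γ, -, -, hγ⟩ := hcr.edge
    have h1 : γ 1 ∈ edgePts S := by
      rw [← hγ]
      exact ⟨1, rfl⟩
    exact ⟨γ 1, h1.1, locE hΩo (hcr.sub h1.1) h1.2⟩
  refine ⟨?_, topo hΩo hΩ.isPreconnected hSc hcr.conn.isPreconnected F1 hloc hedge⟩
  obtain ⟨p, hp⟩ := hcr.conn.nonempty
  have := F1 hp
  by_contra hne
  rw [Set.not_nonempty_iff_eq_empty] at hne
  rw [hne, closure_empty] at this
  exact this

end Pool.Agent.H97.ICA
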