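import Pool.Agent.H94.AC.Targets

/-!
# Insulating cracks, module SUP: superposition with an analytic map is analytic
-/

open Set Filter Topology Metric
open scoped ENNReal NNReal

namespace Pool.Agent.H97.ICA

open Pool.Agent.H94.IC Pool.Agent.H94.AC

section sup

variable {V F X : Type} [NormedAddCommGroup V] [NormedSpace ℝ V] [NormedAddCommGroup F] [NormedSpace ℝ F]
  [TopologicalSpace X] [CompactSpace X]

/-- pointwise application of a continuous multilinear map -/
noncomputable def pw {n : ℕ} (m : ContinuousMultilinearMap ℝ (fun _ : Fin n => V) F) :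
    ContinuousMultilinearMap ℝ (fun _ : Fin n => C(X, V)) C(X, F) :=
  MultilinearMap.mkContinuous
    { toFun := fun f => ⟨fun x => m (fun i => f i x), by
        exact m.cont.comp (continuous_pi fun i => (f i).continuous)⟩
      map_update_add' := by
        intro _ f i a b
        ext x
        simp only [ContinuousMap.coe_mk, ContinuousMap.add_apply]
        have h : ∀ c : C(X, V), (fun j => (Function.update f i c) j x) =
            Function.update (fun j => f j x) i (c x) := by
          intro c
          ext j
          by_cases hj : j = i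
          · subst hj; simp
          · simp [Function.update_of_ne hj]
        rw [h, h, h]
        simp [ContinuousMultilinearMap.map_update_add]
      map_update_smul' := by
        intro _ f i c a
        ext x
        simp only [ContinuousMap.coe_mk, ContinuousMap.smul_apply]
        have h : ∀ c : C(X, V), (fun j => (Function.update f i c) j x) =
            Function.update (fun j => f j x) i (c x) := by
          intro c
          ext j
          by_cases hj : j = i
          · subst hj; simp
          · simp [Function.update_of_ne hj]
        rw [h, h]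
        simp [ContinuousMultilinearMap.map_update_smul] }
    ‖m‖ (by
      intro f
      rw [ContinuousMap.norm_le _ (by positivity)]
      intro x
      refine (m.le_opNorm _).trans ?_
      gcongr with i _
      exact (f i).norm_coe_le_norm x)

theorem pw_apply {n : ℕ} (m : ContinuousMultilinearMap ℝ (fun _ : Fin n => V) F)
    (f : Fin n → C(X, V)) (x : X) : pw m f x = m (fun i => f i x) := rfl

theorem pw_norm {n : ℕ} (m : ContinuousMultilinearMap ℝ (fun _ : Fin n => V) F) :
    ‖(pw m : ContinuousMultilinearMap ℝ (fun _ : Fin n => C(X, V)) C(X, F))‖ ≤ ‖m‖ :=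
  MultilinearMap.mkContinuous_norm_le _ (norm_nonneg _) _

end sup

theorem sup : T_SUP := by
  intro F _ _ _ G hG
  obtain ⟨p, r0, hp⟩ := hG
  obtain ⟨r, hr1, hr2⟩ := ENNReal.lt_iff_exists_nnreal_btwn.1 hp.r_pos
  have hr : (0 : ℝ) < r := by
    have : (0 : ℝ≥0∞) < r := hr1
    exact_mod_cast this
  refine ⟨r, hr, ?_⟩
  intro X _ _
  let q : FormalMultilinearSeries ℝ C(X, E) C(X, F) := fun n => pw (p n)
  have hq : p.radius ≤ q.radius :=
    FormalMultilinearSeries.radius_le_of_le (fun n => pw_norm (p n))
  have hpr : (r : ℝ≥0∞) < q.radius := lt_of_lt_of_le (hr2.trans_le hp.r_le) hq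
  have hball : ball (0 : C(X, E)) r ⊆ Metric.eball (0 : C(X, E)) q.radius := by
    intro f hf
    rw [Metric.mem_eball]
    rw [mem_ball] at hf
    refine lt_trans ?_ hpr
    rw [edist_nndist]
    exact_mod_cast hf
  have hs := q.hasFPowerSeriesOnBall (lt_of_le_of_lt bot_le hpr)
  refine ⟨q.sum, hs.analyticOnNhd.mono hball, ?_⟩
  intro f hf x
  have h1 : HasSum (fun n : ℕ => q n fun _ : Fin n => f) (q.sum f) := by
    have := hs.hasSum (hball hf)
    simpa using this
  have h2 := h1.mapL (ContinuousMap.evalCLM ℝ x : C(X, F) →L[ℝ] F)
  have h3 : HasSum (fun n : ℕ => p n fun _ : Fin n => f x) (q.sum f x) := h2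
  have hx : f x ∈ Metric.eball (0 : E) r0 := by
    rw [Metric.mem_eball, edist_nndist]
    refine lt_trans ?_ hr2
    rw [mem_ball] at hf
    have : dist (f x) 0 < r := lt_of_le_of_lt (by
      rw [dist_zero_right, dist_zero_right]
      exact f.norm_coe_le_norm x) hf
    exact_mod_cast this
  have h4 := hp.hasSum hx
  rw [zero_add] at h4
  exact h3.unique h4

end Pool.Agent.H97.ICA
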